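import Mathlib

/-!
# HoTT-injectivity and HoTT-projectivity are not determined by the 1-topos (MP_9c2d05_gt)

For a group `G` let `D_G` be the (2,1)-category with two objects `0, 1`, mapping spaces
`Map(0,0) = Map(1,1) = *`, `Map(1,0) = ∅`, `Map(0,1) = BG`, and let `𝒳_G = P(D_G)` be the
∞-topos of presheaves of spaces on `D_G`.  An object `X` of `𝒳_G` consists of spaces
`X₁ = X(1)`, `X₀ = X(0)` and a map `BG × X₁ → X₀`.  For `H` trivial, `D_H` is the category
`0 → 1`, so sets cover in `𝒳_H`.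

The 1-topos `τ_{≤0}(𝒳_G / X)` only depends on the 1-truncation of `X`, so in the definition of
HoTT-injectivity and HoTT-projectivity it is enough to consider 1-truncated `X`.

* `Obj G` : the 1-truncated objects of `𝒳_G` (spaces are replaced by groupoids, and `BG` by the
  one-object groupoid `SingleObj G`).
* `El X` : the homotopy category of the ∞-category of elements `∫ X`.  Its objects are the
  pairs `(0, y)` with `y ∈ X(0)` and `(1, x)` with `x ∈ X(1)`.  A morphism
  `(0, y) ⟶ (1, x)` of `∫ X` is a point `φ` of `Map(0,1) = BG` with a path `y ⟶ φ^* x`, so a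
  homotopy class of these is a path `y ⟶ φ^* x` (for the standard point `φ` of `BG`) modulo
  the action of `Aut(φ) = G`.
  As `𝒳_G / X ≃ P(∫ X)`, the 1-topos `τ_{≤0}(𝒳_G / X)` is the category of presheaves of sets
  on `El X`; modules over the constant ring object `𝔽₂` in it are the presheaves of
  `𝔽₂`-vector spaces on `El X`; effective epimorphisms between 0-truncated objects are the
  objectwise surjective maps.
* `term G` is the terminal object of `𝒳_G`, so `τ_{≤0} 𝒳_G` is the category of presheaves of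
  sets on `El (term G) = h D_G`, and base change along `X → 1` is the pullback along
  `toTerm X : El X ⥤ El (term G)`.

The counterexample: since `BG` is connected, `h D_G` is the category `0 → 1` for every `G`.
The slice of `𝒳_G` over the representable object `y(1) = (*, BG)` consists of presheaves on the
category obtained from `BG` by adding a terminal object, so a module over `y(1)` is a vector
space `A₁`, a representation `A₀` of `G` and a map from `A₁` to the invariants of `A₀`.  For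
`G = ℤ/2` the constant module `𝔽₂` is not internally injective there, and the module
`(0 → 𝔽₂)` is not internally projective there, but both are in `τ_{≤0} 𝒳_G`.
-/

open CategoryTheory Limits Opposite

namespace Pool.Agent.Results.MP_9c2d05_gt.NotStableUnderBaseChange

/-- A 1-truncated object of the presheaf ∞-topos `𝒳_G = P(D_G)`: groupoids `X₁ = X(1)`,
`X₀ = X(0)` and the action `BG × X₁ ⥤ X₀` of `Map(0,1) = BG`. -/
structure Obj (G : Type) [Group G] where
  X₁ : Type
  X₀ : Type
  [grpd₁ : Groupoid.{0} X₁]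
  [grpd₀ : Groupoid.{0} X₀]
  act : SingleObj G × X₁ ⥤ X₀

attribute [instance] Obj.grpd₁ Obj.grpd₀

variable {G : Type} [Group G]

/-- The restriction `φ^* x ∈ X(0)` of a point `x ∈ X(1)` along the point `φ` of
`Map(0,1) = BG`. -/
abbrev Obj.res (X : Obj G) (x : X.X₁) : X.X₀ := X.act.obj (SingleObj.star G, x)

/-- The path `φ^* x ⟶ φ^* x'` induced by an automorphism `g ∈ G` of `φ` and a path
`h : x ⟶ x'`. -/
abbrev Obj.push (X : Obj G) (g : G) {x x' : X.X₁} (h : x ⟶ x') : X.res x ⟶ X.res x' :=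
  X.act.map (Prod.mkHom (show SingleObj.star G ⟶ SingleObj.star G from g) h)

lemma Obj.push_comp (X : Obj G) (g g' : G) {x x' x'' : X.X₁} (h : x ⟶ x') (h' : x' ⟶ x'') :
    X.push g h ≫ X.push g' h' = X.push (g' * g) (h ≫ h') := by
  unfold Obj.push
  rw [← X.act.map_comp]
  rfl

lemma Obj.push_one (X : Obj G) (x : X.X₁) : X.push 1 (𝟙 x) = 𝟙 _ :=
  X.act.map_id _

/-- The objects of the category of elements of `X`: pairs `(0, y)` with `y ∈ X(0)` and
`(1, x)` with `x ∈ X(1)`. -/
inductive El (X : Obj G) : Type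
  | pt₀ (y : X.X₀) : El X
  | pt₁ (x : X.X₁) : El X

namespace El

variable {X : Obj G}

/-- Two paths `γ, γ' : y ⟶ φ^* x` (with `φ` the point of `Map(0,1) = BG`) give homotopic
morphisms `(0, y) ⟶ (1, x)` of `∫ X` when they differ by an automorphism `g ∈ G` of `φ`. -/
def Rel (y : X.X₀) (x : X.X₁) (γ γ' : y ⟶ X.res x) : Prop :=
  ∃ g : G, γ' = γ ≫ X.push g (𝟙 x)

/-- Homotopy classes of morphisms in the ∞-category of elements of `X`. -/
def Hom : El X → El X → Type
  | pt₀ y, pt₀ y' => (y ⟶ y')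
  | pt₁ x, pt₁ x' => (x ⟶ x')
  | pt₀ y, pt₁ x => Quot (Rel y x)
  | pt₁ _, pt₀ _ => PEmpty

/-- Composition of homotopy classes of morphisms. -/
def comp : {a b c : El X} → Hom a b → Hom b c → Hom a c
  | pt₀ y, pt₀ y', pt₀ y'', f, g => (show y ⟶ y' from f) ≫ (show y' ⟶ y'' from g)
  | pt₁ x, pt₁ x', pt₁ x'', f, g => (show x ⟶ x' from f) ≫ (show x' ⟶ x'' from g)
  | pt₀ y, pt₀ y', pt₁ _, f, q => Quot.map (fun γ => (show y ⟶ y' from f) ≫ γ) (by
      rintro γ _ ⟨g, rfl⟩
      exact ⟨g, by simp⟩) q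
  | pt₀ _, pt₁ x, pt₁ x', q, h => Quot.map (fun γ => γ ≫ X.push 1 (show x ⟶ x' from h)) (by
      rintro γ _ ⟨g, rfl⟩
      refine ⟨g, ?_⟩
      dsimp only
      rw [Category.assoc, Category.assoc, X.push_comp, X.push_comp, one_mul, mul_one,
        Category.id_comp, Category.comp_id]) q

instance : Category (El X) where
  Hom := Hom
  id a := match a with
    | pt₀ y => 𝟙 y
    | pt₁ x => 𝟙 x
  comp := comp
  id_comp {a b} f := by
    match a, b, f with
    | pt₀ y, pt₀ y', f => exact Category.id_comp (show y ⟶ y' from f)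
    | pt₁ x, pt₁ x', f => exact Category.id_comp (show x ⟶ x' from f)
    | pt₀ y, pt₁ x, f =>
      induction f using Quot.ind with
      | mk γ => exact congrArg (Quot.mk _) (Category.id_comp γ)
  comp_id {a b} f := by
    match a, b, f with
    | pt₀ y, pt₀ y', f => exact Category.comp_id (show y ⟶ y' from f)
    | pt₁ x, pt₁ x', f => exact Category.comp_id (show x ⟶ x' from f)
    | pt₀ y, pt₁ x, f =>
      induction f using Quot.ind with
      | mk γ =>
        refine congrArg (Quot.mk _) ?_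
        dsimp only
        rw [X.push_one, Category.comp_id]
  assoc {a b c d} f g h := by
    match a, b, c, d, f, g, h with
    | pt₀ y, pt₀ y', pt₀ y'', pt₀ y''', f, g, h =>
      exact Category.assoc (show y ⟶ y' from f) (show y' ⟶ y'' from g) (show y'' ⟶ y''' from h)
    | pt₁ x, pt₁ x', pt₁ x'', pt₁ x''', f, g, h =>
      exact Category.assoc (show x ⟶ x' from f) (show x' ⟶ x'' from g) (show x'' ⟶ x''' from h)
    | pt₀ _, pt₀ _, pt₀ _, pt₁ _, f, g, h =>
      induction h using Quot.ind with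
      | mk γ => exact congrArg (Quot.mk _) (Category.assoc _ _ _)
    | pt₀ _, pt₀ _, pt₁ _, pt₁ _, f, g, h =>
      induction g using Quot.ind with
      | mk γ => exact congrArg (Quot.mk _) (Category.assoc _ _ _)
    | pt₀ _, pt₁ _, pt₁ _, pt₁ _, f, g, h =>
      induction f using Quot.ind with
      | mk γ =>
        refine congrArg (Quot.mk _) ?_
        dsimp only
        rw [Category.assoc, X.push_comp, one_mul]
        rfl

end El

/-- The terminal object of `𝒳_G`. -/
def term (G : Type) [Group G] : Obj G where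
  X₁ := Discrete PUnit
  X₀ := Discrete PUnit
  act := (Functor.const _).obj ⟨PUnit.unit⟩

/-- The functor `∫ X → ∫ 1 = D_G` induced by `X → 1`, on homotopy categories. -/
def toTerm (X : Obj G) : El X ⥤ El (term G) where
  obj
    | El.pt₀ _ => El.pt₀ (X := term G) ⟨PUnit.unit⟩
    | El.pt₁ _ => El.pt₁ (X := term G) ⟨PUnit.unit⟩
  map {a b} f := match a, b, f with
    | El.pt₀ _, El.pt₀ _, _ => 𝟙 (El.pt₀ (X := term G) ⟨PUnit.unit⟩)
    | El.pt₁ _, El.pt₁ _, _ => 𝟙 (El.pt₁ (X := term G) ⟨PUnit.unit⟩)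
    | El.pt₀ _, El.pt₁ _, _ => Quot.mk _ (𝟙 _)
  map_id a := by
    cases a <;> rfl
  map_comp {a b c} f g := by
    match a, b, c, f, g with
    | El.pt₀ _, El.pt₀ _, El.pt₀ _, f, g => rfl
    | El.pt₁ _, El.pt₁ _, El.pt₁ _, f, g => rfl
    | El.pt₀ _, El.pt₀ _, El.pt₁ _, f, g => rfl
    | El.pt₀ _, El.pt₁ _, El.pt₁ _, f, g => rfl

/-- The presheaves of `𝔽₂`-vector spaces on `E`, i.e. the modules over the constant ring object
`𝔽₂` of the presheaf topos of `E`. -/
abbrev Mod (E : Type) [Category.{0} E] : Type 1 := Eᵒᵖ ⥤ ModuleCat.{0} (ZMod 2)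

/-- The restriction of a module to the slice category `E / e`. -/
abbrev restr {E : Type} [Category.{0} E] (A : Mod E) (e : E) : Mod (Over e) :=
  (Over.forget e).op ⋙ A

/-- A presheaf `N` of `𝔽₂`-vector spaces on `E`, i.e. a module over the constant ring object
`𝔽₂` of the presheaf topos of `E`, is internally injective if for every monomorphism
`i : A ⟶ B` of such modules the map of internal homs `Hom(B, N) ⟶ Hom(A, N)` is an
epimorphism of presheaves, i.e. surjective at every object `e` of `E`.  The value of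
`Hom(A, N)` at `e` is the set of morphisms between the restrictions of `A` and `N` to
`E / e`. -/
def InternallyInjective {E : Type} [Category.{0} E] (N : Mod E) : Prop :=
  ∀ (A B : Mod E) (i : A ⟶ B) [Mono i] (e : E) (f : restr A e ⟶ restr N e),
    ∃ g : restr B e ⟶ restr N e, Functor.whiskerLeft (Over.forget e).op i ≫ g = f

/-- A presheaf `P` of `𝔽₂`-vector spaces on `E` is internally projective if for every
epimorphism `p : B ⟶ C` of such modules the map of internal homs `Hom(P, B) ⟶ Hom(P, C)` is an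
epimorphism of presheaves, i.e. surjective at every object `e` of `E`. -/
def InternallyProjective {E : Type} [Category.{0} E] (P : Mod E) : Prop :=
  ∀ (B C : Mod E) (p : B ⟶ C) [Epi p] (e : E) (f : restr P e ⟶ restr C e),
    ∃ g : restr P e ⟶ restr B e, g ≫ Functor.whiskerLeft (Over.forget e).op p = f

/-- A module `M` over the constant ring object `𝔽₂` in `τ_{≤0} 𝒳_G` is HoTT-projective if for
every `X ∈ 𝒳_G` its base change to `𝒳_G / X` is internally projective. -/
def HoTTProjective (G : Type) [Group G] (M : Mod (El (term G))) : Prop :=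
  ∀ X : Obj G, InternallyProjective ((toTerm X).op ⋙ M)

/-- A module `M` over the constant ring object `𝔽₂` in `τ_{≤0} 𝒳_G` is HoTT-injective if for
every `X ∈ 𝒳_G` its base change to `𝒳_G / X` is internally injective. -/
def HoTTInjective (G : Type) [Group G] (M : Mod (El (term G))) : Prop :=
  ∀ X : Obj G, InternallyInjective ((toTerm X).op ⋙ M)

/-- There are an equivalence between the 1-toposes `τ_{≤0} 𝒳_G` and `τ_{≤0} 𝒳_H` (induced by an
equivalence `E : h D_G ≌ h D_H`) and a module in them that is internally injective, HoTT-injective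
in `𝒳_H` but not HoTT-injective in `𝒳_G`. -/
def InjectivityDiffers (G H : Type) [Group G] [Group H] : Prop :=
  ∃ (E : El (term G) ≌ El (term H)) (M : Mod (El (term H))),
    HoTTInjective H M ∧ InternallyInjective (E.functor.op ⋙ M) ∧
      ¬ HoTTInjective G (E.functor.op ⋙ M)

/-- There are an equivalence between the 1-toposes `τ_{≤0} 𝒳_G` and `τ_{≤0} 𝒳_H` (induced by an
equivalence `E : h D_G ≌ h D_H`) and a module in them that is internally projective,
HoTT-projective in `𝒳_H` but not HoTT-projective in `𝒳_G`. -/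
def ProjectivityDiffers (G H : Type) [Group G] [Group H] : Prop :=
  ∃ (E : El (term G) ≌ El (term H)) (P : Mod (El (term H))),
    HoTTProjective H P ∧ InternallyProjective (E.functor.op ⋙ P) ∧
      ¬ HoTTProjective G (E.functor.op ⋙ P)

/-! ### The constant module -/

/-- The one-dimensional `𝔽₂`-vector space. -/
abbrev k : ModuleCat.{0} (ZMod 2) := ModuleCat.of (ZMod 2) (ZMod 2)

/-- If all slices of `E` have an initial object then the constant module is internally
injective. -/
lemma const_injective {E : Type} [Category.{0} E]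
    (h : ∀ e : E, ∃ u : Over e, Nonempty (IsInitial u)) :
    InternallyInjective ((Functor.const Eᵒᵖ).obj k) := by
  have : Fact (Nat.Prime 2) := ⟨Nat.prime_two⟩
  intro A B i _ e f
  obtain ⟨u, ⟨hu⟩⟩ := h e
  have hinj : Function.Injective (i.app (op u.left)).hom := by
    rw [← ModuleCat.mono_iff_injective]
    infer_instance
  obtain ⟨r, hr⟩ := LinearMap.exists_leftInverse_of_injective (i.app (op u.left)).hom
    (LinearMap.ker_eq_bot.2 hinj)
  let ℓ : B.obj (op u.left) ⟶ k := ModuleCat.ofHom ((f.app (op u)).hom.comp r)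
  have hℓ : i.app (op u.left) ≫ ℓ = f.app (op u) := by
    ext x
    change (f.app (op u)).hom (r ((i.app (op u.left)).hom x)) = _
    have := LinearMap.congr_fun hr x
    simp only [LinearMap.comp_apply, LinearMap.id_apply] at this
    rw [this]
    rfl
  refine ⟨{ app := fun v => B.map (hu.to v.unop).left.op ≫ ℓ, naturality := ?_ }, ?_⟩
  · intro v w t
    change B.map t.unop.left.op ≫ B.map (hu.to w.unop).left.op ≫ ℓ =
      (B.map (hu.to v.unop).left.op ≫ ℓ) ≫ 𝟙 _
    rw [Category.comp_id, ← Category.assoc, ← B.map_comp, ← op_comp, ← Over.comp_left,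
      hu.hom_ext (hu.to w.unop ≫ t.unop) (hu.to v.unop)]
  · ext1
    funext v
    change i.app (op v.unop.left) ≫ B.map (hu.to v.unop).left.op ≫ ℓ = f.app v
    have h1 : i.app (op v.unop.left) ≫ B.map (hu.to v.unop).left.op =
      A.map (hu.to v.unop).left.op ≫ i.app (op u.left) := (i.naturality _).symm
    rw [← Category.assoc, h1, Category.assoc, hℓ]
    have h2 := f.naturality (hu.to v.unop).op
    change A.map (hu.to v.unop).left.op ≫ f.app (op u) = f.app (op v.unop) ≫ 𝟙 _ at h2
    rw [h2, Category.comp_id]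

section

variable {X : Obj G}

/-- The morphism `(0, y) ⟶ (0, y')` of `El X` given by a path. -/
def mk₀ {y y' : X.X₀} (f : y ⟶ y') : (El.pt₀ y : El X) ⟶ El.pt₀ y' := f

/-- The morphism `(1, x) ⟶ (1, x')` of `El X` given by a path. -/
def mk₁ {x x' : X.X₁} (f : x ⟶ x') : (El.pt₁ x : El X) ⟶ El.pt₁ x' := f

/-- The morphism `(0, y) ⟶ (1, x)` of `El X` given by a path `y ⟶ φ^* x`. -/
def mk₀₁ {y : X.X₀} {x : X.X₁} (γ : y ⟶ X.res x) : (El.pt₀ y : El X) ⟶ El.pt₁ x :=
  Quot.mk _ γ

lemma mk₀_comp {y y' y'' : X.X₀} (f : y ⟶ y') (g : y' ⟶ y'') :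
    mk₀ f ≫ mk₀ g = mk₀ (f ≫ g) := rfl

lemma mk₁_comp {x x' x'' : X.X₁} (f : x ⟶ x') (g : x' ⟶ x'') :
    mk₁ f ≫ mk₁ g = mk₁ (f ≫ g) := rfl

lemma mk₀_mk₀₁ {y y' : X.X₀} {x : X.X₁} (f : y ⟶ y') (γ : y' ⟶ X.res x) :
    mk₀ f ≫ mk₀₁ γ = mk₀₁ (f ≫ γ) := rfl

lemma mk₀_id (y : X.X₀) : mk₀ (𝟙 y) = 𝟙 (El.pt₀ y : El X) := rfl

lemma mk₁_id (x : X.X₁) : mk₁ (𝟙 x) = 𝟙 (El.pt₁ x : El X) := rfl

lemma mk₀₁_surj {y : X.X₀} {x : X.X₁} (q : (El.pt₀ y : El X) ⟶ El.pt₁ x) :
    ∃ γ, q = mk₀₁ γ := by
  obtain ⟨γ, hγ⟩ := Quot.exists_rep (show Quot (El.Rel y x) from q)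
  exact ⟨γ, hγ.symm⟩

lemma mk₀₁_inj (hX : ∀ (g : G) (x : X.X₁), X.push g (𝟙 x) = 𝟙 _) {y : X.X₀} {x : X.X₁}
    {γ γ' : y ⟶ X.res x} (h : mk₀₁ γ = mk₀₁ γ') : γ = γ' := by
  have key : ∀ a b : y ⟶ X.res x, El.Rel y x a b → a = b := by
    rintro a _ ⟨g, rfl⟩
    rw [hX, Category.comp_id]
  exact congrArg (Quot.lift (fun a => a) key) h

lemma isInitial_of_existsUnique {C : Type} [Category.{0} C] (u : C)
    (h : ∀ v : C, ∃ m : u ⟶ v, ∀ m' : u ⟶ v, m' = m) : Nonempty (IsInitial u) :=
  ⟨IsInitial.ofUniqueHom (fun v => (h v).choose) (fun v m => (h v).choose_spec m)⟩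

end

/-- If the automorphisms of `φ ∈ Map(0,1)` act trivially on `X` then the slices of `El X` have
initial objects. -/
lemma exists_initial' (X : Obj G) (hX : ∀ (g : G) (x : X.X₁), X.push g (𝟙 x) = 𝟙 _) (e : El X) :
    ∃ (y₀ : X.X₀) (q : El.pt₀ y₀ ⟶ e), Nonempty (IsInitial (Over.mk q)) := by
  match e with
  | El.pt₀ y =>
    refine ⟨y, 𝟙 (El.pt₀ y), isInitial_of_existsUnique _ ?_⟩
    rintro ⟨l, ⟨⟨⟩⟩, q⟩
    match l, q with
    | El.pt₀ y', q =>
      refine ⟨Over.homMk (mk₀ (inv (show y' ⟶ y from q))) ?_, fun m' => ?_⟩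
      · change mk₀ (inv (show y' ⟶ y from q)) ≫ mk₀ (show y' ⟶ y from q) = _
        rw [mk₀_comp, IsIso.inv_hom_id]
        rfl
      · ext1
        have h := Over.w m'
        change (show y ⟶ y' from m'.left) ≫ (show y' ⟶ y from q) = 𝟙 y at h
        change (show y ⟶ y' from m'.left) = inv (show y' ⟶ y from q)
        exact IsIso.eq_inv_of_inv_hom_id h
  | El.pt₁ x =>
    refine ⟨X.res x, mk₀₁ (𝟙 (X.res x)), isInitial_of_existsUnique _ ?_⟩
    rintro ⟨l, ⟨⟨⟩⟩, q⟩
    match l, q with
    | El.pt₀ y', q =>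
      obtain ⟨γ, rfl⟩ := mk₀₁_surj q
      refine ⟨Over.homMk (mk₀ (inv γ)) ?_, fun m' => ?_⟩
      · change mk₀ (inv γ) ≫ mk₀₁ γ = _
        rw [mk₀_mk₀₁, IsIso.inv_hom_id]
        rfl
      · ext1
        have h := Over.w m'
        change mk₀ (show X.res x ⟶ y' from m'.left) ≫ mk₀₁ γ = mk₀₁ (𝟙 (X.res x)) at h
        rw [mk₀_mk₀₁] at h
        have h' := mk₀₁_inj hX h
        change (show X.res x ⟶ y' from m'.left) = inv γ
        exact IsIso.eq_inv_of_inv_hom_id h'
    | El.pt₁ x', q =>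
      refine ⟨Over.homMk (mk₀₁ (𝟙 (X.res x)) ≫ mk₁ (inv (show x' ⟶ x from q))) ?_,
        fun m' => ?_⟩
      · change (mk₀₁ (𝟙 (X.res x)) ≫ mk₁ (inv (show x' ⟶ x from q))) ≫
          mk₁ (show x' ⟶ x from q) = mk₀₁ (𝟙 (X.res x))
        rw [Category.assoc, mk₁_comp, IsIso.inv_hom_id, mk₁_id, Category.comp_id]
      · ext1
        have h := Over.w m'
        change m'.left ≫ mk₁ (show x' ⟶ x from q) = mk₀₁ (𝟙 (X.res x)) at h
        change m'.left = mk₀₁ (𝟙 (X.res x)) ≫ mk₁ (inv (show x' ⟶ x from q))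
        have key : m'.left = (m'.left ≫ mk₁ (show x' ⟶ x from q)) ≫
            mk₁ (inv (show x' ⟶ x from q)) := by
          rw [Category.assoc, mk₁_comp, IsIso.hom_inv_id, mk₁_id, Category.comp_id]
        exact key.trans (congrArg (· ≫ mk₁ (inv (show x' ⟶ x from q))) h)

lemma exists_initial (X : Obj G) (hX : ∀ (g : G) (x : X.X₁), X.push g (𝟙 x) = 𝟙 _) (e : El X) :
    ∃ u : Over e, Nonempty (IsInitial u) := by
  obtain ⟨_, q, hq⟩ := exists_initial' X hX e
  exact ⟨_, hq⟩

/-- In `𝒳_H` with `H` trivial (presheaves of spaces on the category `0 → 1`) the constant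
module is HoTT-injective. -/
lemma hott_trivial : HoTTInjective Unit ((Functor.const _).obj k) := by
  intro X
  change InternallyInjective ((Functor.const (El X)ᵒᵖ).obj k)
  exact const_injective (exists_initial X (fun g x => X.push_one x))

lemma int_term : InternallyInjective ((Functor.const (El (term G))ᵒᵖ).obj k) :=
  const_injective (exists_initial (term G) (fun _ _ => rfl))

/-- The functor `τ_{≤0}`-comparison on homotopy categories `h D_G → h D_H`. -/
def cmp (G H : Type) [Group G] [Group H] : El (term G) ⥤ El (term H) where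
  obj
    | El.pt₀ y => El.pt₀ (X := term H) y
    | El.pt₁ x => El.pt₁ (X := term H) x
  map {a b} f := match a, b, f with
    | El.pt₀ _, El.pt₀ _, f => f
    | El.pt₁ _, El.pt₁ _, f => f
    | El.pt₀ _, El.pt₁ _, _ => Quot.mk _ (𝟙 _)
  map_id a := by
    cases a <;> rfl
  map_comp {a b c} f g := by
    match a, b, c, f, g with
    | El.pt₀ _, El.pt₀ _, El.pt₀ _, f, g => rfl
    | El.pt₁ _, El.pt₁ _, El.pt₁ _, f, g => rfl
    | El.pt₀ _, El.pt₀ _, El.pt₁ _, f, g => rfl
    | El.pt₀ _, El.pt₁ _, El.pt₁ _, f, g => rfl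

instance (a b : El (term G)) : Subsingleton (a ⟶ b) := by
  match a, b with
  | El.pt₀ y, El.pt₀ y' =>
    exact (inferInstance : Subsingleton ((show Discrete PUnit from y) ⟶ y'))
  | El.pt₁ y, El.pt₁ y' =>
    exact (inferInstance : Subsingleton ((show Discrete PUnit from y) ⟶ y'))
  | El.pt₁ y, El.pt₀ y' => exact (inferInstance : Subsingleton PEmpty)
  | El.pt₀ y, El.pt₁ x =>
    constructor
    intro p q
    obtain ⟨γ, rfl⟩ := mk₀₁_surj p
    obtain ⟨γ', rfl⟩ := mk₀₁_surj q
    exact congrArg mk₀₁ (Subsingleton.elim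
      (α := ((show Discrete PUnit from y) ⟶ (⟨PUnit.unit⟩ : Discrete PUnit))) γ γ')

/-- `h D_G ≌ h D_H`, hence `τ_{≤0} 𝒳_G ≃ τ_{≤0} 𝒳_H`. -/
def cmpEquiv (G H : Type) [Group G] [Group H] : El (term G) ≌ El (term H) where
  functor := cmp G H
  inverse := cmp H G
  unitIso := NatIso.ofComponents (fun a => eqToIso (by cases a <;> rfl))
    (fun _ => Subsingleton.elim _ _)
  counitIso := NatIso.ofComponents (fun a => eqToIso (by cases a <;> rfl))
    (fun _ => Subsingleton.elim _ _)
  functor_unitIso_comp _ := Subsingleton.elim _ _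

/-! ### The slice over the representable object `y(1) = (*, BG)` -/

/-- The representable object `y(1)` of `𝒳_G`: `y(1)(1) = *`, `y(1)(0) = BG`. -/
def rep (G : Type) [Group G] : Obj G where
  X₁ := Discrete PUnit
  X₀ := SingleObj G
  act := CategoryTheory.Prod.fst _ _

/-- The point `(0, *)` of `∫ y(1)`. -/
abbrev p₀ (G : Type) [Group G] : El (rep G) := El.pt₀ (X := rep G) (SingleObj.star G)

/-- The point `(1, *)` of `∫ y(1)`. -/
abbrev p₁ (G : Type) [Group G] : El (rep G) := El.pt₁ (X := rep G) ⟨PUnit.unit⟩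

/-- The endomorphism of `(0, *)` given by `g ∈ G`. -/
def endo (g : G) : p₀ G ⟶ p₀ G := mk₀ (X := rep G) (show SingleObj.star G ⟶ SingleObj.star G from g)

/-- The canonical morphism `(0, *) ⟶ (1, *)`. -/
def down (G : Type) [Group G] : p₀ G ⟶ p₁ G := mk₀₁ (X := rep G) (𝟙 (SingleObj.star G))

lemma endo_down (g : G) : endo g ≫ down G = down G := by
  refine Quot.sound ⟨g⁻¹, ?_⟩
  change (1 : G) = g⁻¹ * (1 * g)
  simp

/-- The coinduced module `e ↦ (Hom((0,*), e) → 𝔽₂)`. -/
def coind (G : Type) [Group G] : (El (rep G))ᵒᵖ ⥤ ModuleCat.{0} (ZMod 2) where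
  obj e := ModuleCat.of (ZMod 2) ((p₀ G ⟶ e.unop) → ZMod 2)
  map u := ModuleCat.ofHom (LinearMap.funLeft (ZMod 2) (ZMod 2) (fun v => v ≫ u.unop))
  map_id e := by
    ext φ v
    simp [LinearMap.funLeft_apply]
  map_comp u w := by
    ext φ v
    simp [LinearMap.funLeft_apply]

/-- The inclusion of the constant module as the constant functions. -/
def incl (G : Type) [Group G] : (Functor.const (El (rep G))ᵒᵖ).obj k ⟶ coind G where
  app e := ModuleCat.ofHom (LinearMap.pi (fun _ => LinearMap.id))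
  naturality e e' u := by
    ext
    rfl

instance : Mono (incl G) := by
  have : ∀ e, Mono ((incl G).app e) := by
    intro e
    rw [ModuleCat.mono_iff_injective]
    intro x y hxy
    have hne : Nonempty (p₀ G ⟶ e.unop) := by
      match e with
      | ⟨El.pt₀ _⟩ => exact ⟨𝟙 _⟩
      | ⟨El.pt₁ _⟩ => exact ⟨down G⟩
    obtain ⟨v⟩ := hne
    exact congrFun hxy v
  exact NatTrans.mono_of_mono_app _

/-- The pullback of the constant module to `𝒳_G / y(1)` is not internally injective for
`G = ℤ/2`. -/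
lemma not_injective_rep : ¬ InternallyInjective
    ((Functor.const (El (rep (Multiplicative (ZMod 2))))ᵒᵖ).obj k) := by
  intro h
  obtain ⟨g, hg⟩ := h _ _ (incl (Multiplicative (ZMod 2))) (p₁ _) (𝟙 _)
  let t : Multiplicative (ZMod 2) := Multiplicative.ofAdd 1
  let u : Over (p₁ (Multiplicative (ZMod 2))) := Over.mk (down _)
  let v : u ⟶ u := Over.homMk (endo t) (endo_down t)
  let L : ((p₀ (Multiplicative (ZMod 2)) ⟶ p₀ (Multiplicative (ZMod 2))) → ZMod 2)
      →ₗ[ZMod 2] ZMod 2 := (g.app (op u)).hom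
  let φ : (p₀ (Multiplicative (ZMod 2)) ⟶ p₀ (Multiplicative (ZMod 2))) → ZMod 2 :=
    fun w => if (show Multiplicative (ZMod 2) from w) = 1 then 1 else 0
  have hnat : L (fun w => φ (w ≫ endo t)) = L φ := by
    have := g.naturality v.op
    have h2 := LinearMap.congr_fun (congrArg ModuleCat.Hom.hom this) φ
    exact h2
  have hone : L (fun _ => 1) = 1 := by
    have := congrArg (fun τ => (τ.app (op u)).hom (1 : ZMod 2)) hg
    exact this
  have hsum : (φ + fun w => φ (w ≫ endo t)) = fun _ => 1 := by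
    funext w
    have key : ∀ w : Multiplicative (ZMod 2),
        (if w = 1 then (1 : ZMod 2) else 0) + (if t * w = 1 then 1 else 0) = 1 := by
      decide
    exact key w
  have := hone
  rw [← hsum, map_add, hnat, CharTwo.add_self_eq_zero] at this
  exact zero_ne_one this

/-! ### The projective case -/

/-- The functions `(0, y) ↦ 𝔽₂`, `(1, x) ↦ 0`. -/
def S {X : Obj G} : El X → Submodule (ZMod 2) (ZMod 2)
  | El.pt₀ _ => ⊤
  | El.pt₁ _ => ⊥

lemma S_anti {X : Obj G} {a b : El X} (f : a ⟶ b) : S b ≤ S a := by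
  match a, b, f with
  | El.pt₀ _, _, _ => exact le_top
  | El.pt₁ _, El.pt₁ _, _ => exact le_rfl

/-- The module `(0 → 𝔽₂)` : `𝔽₂` at `(0, *)` and `0` at `(1, *)`. -/
def P₀ (H : Type) [Group H] : (El (term H))ᵒᵖ ⥤ ModuleCat.{0} (ZMod 2) where
  obj e := ModuleCat.of (ZMod 2) (S e.unop)
  map u := ModuleCat.ofHom (Submodule.inclusion (S_anti u.unop))
  map_id e := by
    ext φ
    rfl
  map_comp u w := by
    ext φ
    rfl

section

variable {X : Obj G}

/-- Auxiliary morphism. -/
noncomputable def lift (N B : (El X)ᵒᵖ ⥤ ModuleCat.{0} (ZMod 2))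
    (θ : ∀ y : X.X₀, N.obj (op (El.pt₀ y)) →ₗ[ZMod 2] ZMod 2) {y₀ : X.X₀}
    (b₀ : B.obj (op (El.pt₀ y₀))) :
    (l : El X) → (El.pt₀ y₀ ⟶ l) → (N.obj (op l) ⟶ B.obj (op l))
  | El.pt₀ y, m => ModuleCat.ofHom ((LinearMap.toSpanSingleton (ZMod 2) _
      ((B.map (mk₀ (inv (show y₀ ⟶ y from m))).op).hom b₀)).comp (θ y))
  | El.pt₁ _, _ => 0

lemma lift_comp (N B C : (El X)ᵒᵖ ⥤ ModuleCat.{0} (ZMod 2)) (p : B ⟶ C)
    (hz : ∀ x : X.X₁, Subsingleton (N.obj (op (El.pt₁ x))))
    (θ : ∀ y : X.X₀, N.obj (op (El.pt₀ y)) →ₗ[ZMod 2] ZMod 2)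
    (hθ : ∀ y, Function.Injective (θ y))
    (hnat : ∀ (y y' : X.X₀) (f : y ⟶ y') (n), θ y ((N.map (mk₀ f).op).hom n) = θ y' n)
    {y₀ : X.X₀} (b₀ : B.obj (op (El.pt₀ y₀))) (n₀ : N.obj (op (El.pt₀ y₀)))
    (hn₀ : θ y₀ n₀ = 1) (fu : N.obj (op (El.pt₀ y₀)) ⟶ C.obj (op (El.pt₀ y₀)))
    (hb₀ : (p.app (op (El.pt₀ y₀))).hom b₀ = fu.hom n₀)
    (l : El X) (m : El.pt₀ y₀ ⟶ l) (fv : N.obj (op l) ⟶ C.obj (op l))
    (hf : N.map m.op ≫ fu = fv ≫ C.map m.op) :
    lift N B θ b₀ l m ≫ p.app (op l) = fv := by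
  match l, m, fv, hf with
  | El.pt₀ y, m, fv, hf =>
    ext n
    have h1 : (N.map m.op).hom n = θ y n • n₀ := by
      apply hθ y₀
      rw [map_smul, hn₀, smul_eq_mul, mul_one]
      exact hnat y₀ y (show y₀ ⟶ y from m) n
    have h2 : (C.map m.op).hom (fv.hom n) = θ y n • fu.hom n₀ := by
      have := LinearMap.congr_fun (congrArg ModuleCat.Hom.hom hf) n
      change fu.hom ((N.map m.op).hom n) = (C.map m.op).hom (fv.hom n) at this
      rw [← this, h1, map_smul]
    have h3 : (C.map (mk₀ (inv (show y₀ ⟶ y from m))).op).hom ((C.map m.op).hom (fv.hom n)) =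
        fv.hom n := by
      have : mk₀ (inv (show y₀ ⟶ y from m)) ≫ m = 𝟙 (El.pt₀ y) := by
        change inv (show y₀ ⟶ y from m) ≫ (show y₀ ⟶ y from m) = 𝟙 y
        exact IsIso.inv_hom_id _
      have h4 : C.map m.op ≫ C.map (mk₀ (inv (show y₀ ⟶ y from m))).op = 𝟙 _ := by
        rw [← C.map_comp, ← op_comp, this, op_id, C.map_id]
      exact LinearMap.congr_fun (congrArg ModuleCat.Hom.hom h4) (fv.hom n)
    have h5 : (p.app (op (El.pt₀ y))).hom
        ((B.map (mk₀ (inv (show y₀ ⟶ y from m))).op).hom b₀) =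
        (C.map (mk₀ (inv (show y₀ ⟶ y from m))).op).hom (fu.hom n₀) := by
      have := LinearMap.congr_fun (congrArg ModuleCat.Hom.hom
        (p.naturality (mk₀ (inv (show y₀ ⟶ y from m))).op)) b₀
      refine this.trans ?_
      exact congrArg (C.map (mk₀ (inv (show y₀ ⟶ y from m))).op).hom hb₀
    change (p.app (op (El.pt₀ y))).hom
      (θ y n • (B.map (mk₀ (inv (show y₀ ⟶ y from m))).op).hom b₀) = fv.hom n
    rw [map_smul, h5, ← h3, h2, map_smul]
  | El.pt₁ x, m, fv, hf =>
    ext n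
    have := (hz x).elim n 0
    rw [this, map_zero, map_zero]

lemma proj_of (hX : ∀ (g : G) (x : X.X₁), X.push g (𝟙 x) = 𝟙 _)
    (N : (El X)ᵒᵖ ⥤ ModuleCat.{0} (ZMod 2))
    (hz : ∀ x : X.X₁, Subsingleton (N.obj (op (El.pt₁ x))))
    (θ : ∀ y : X.X₀, N.obj (op (El.pt₀ y)) →ₗ[ZMod 2] ZMod 2)
    (hθ : ∀ y, Function.Injective (θ y))
    (hθ1 : ∀ y, ∃ n, θ y n = 1)
    (hnat : ∀ (y y' : X.X₀) (f : y ⟶ y') (n), θ y ((N.map (mk₀ f).op).hom n) = θ y' n) :
    InternallyProjective N := by
  intro B C p _ e f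
  obtain ⟨y₀, q, ⟨hu⟩⟩ := exists_initial' X hX e
  obtain ⟨n₀, hn₀⟩ := hθ1 y₀
  have hsurj : Function.Surjective (p.app (op (El.pt₀ y₀))).hom := by
    rw [← ModuleCat.epi_iff_surjective]
    infer_instance
  obtain ⟨b₀, hb₀⟩ := hsurj ((f.app (op (Over.mk q))).hom n₀)
  refine ⟨{ app := fun v => lift N B θ b₀ v.unop.left (hu.to v.unop).left,
            naturality := ?_ }, ?_⟩
  · intro v w t
    change N.map t.unop.left.op ≫ lift N B θ b₀ w.unop.left (hu.to w.unop).left =
      lift N B θ b₀ v.unop.left (hu.to v.unop).left ≫ B.map t.unop.left.op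
    have hm : (hu.to w.unop).left ≫ t.unop.left = (hu.to v.unop).left := by
      rw [← Over.comp_left, hu.hom_ext (hu.to w.unop ≫ t.unop) (hu.to v.unop)]
    generalize (hu.to w.unop).left = m at hm ⊢
    generalize (hu.to v.unop).left = m' at hm ⊢
    generalize t.unop.left = r at hm ⊢
    generalize w.unop.left = a at m m' r hm ⊢
    generalize v.unop.left = b at m' r hm ⊢
    match a, b, m, m', r, hm with
    | El.pt₀ y, El.pt₀ y', m, m', r, hm =>
      ext n
      have hr : r ≫ mk₀ (inv (show y₀ ⟶ y' from m')) = mk₀ (inv (show y₀ ⟶ y from m)) := by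
        subst hm
        change (show y ⟶ y' from r) ≫ inv ((show y₀ ⟶ y from m) ≫ (show y ⟶ y' from r)) =
          inv (show y₀ ⟶ y from m)
        rw [IsIso.inv_comp, IsIso.hom_inv_id_assoc]
      have h1 : (B.map r.op).hom ((B.map (mk₀ (inv (show y₀ ⟶ y' from m'))).op).hom b₀) =
          (B.map (mk₀ (inv (show y₀ ⟶ y from m))).op).hom b₀ := by
        rw [← hr, op_comp, B.map_comp]
        rfl
      change θ y ((N.map r.op).hom n) • (B.map (mk₀ (inv (show y₀ ⟶ y from m))).op).hom b₀ =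
        (B.map r.op).hom (θ y' n • (B.map (mk₀ (inv (show y₀ ⟶ y' from m'))).op).hom b₀)
      rw [map_smul, h1]
      exact congrArg (· • _) (hnat y y' (show y ⟶ y' from r) n)
    | El.pt₁ x, El.pt₁ x', m, m', r, hm =>
      ext n
      have := (hz x').elim n 0
      rw [this, map_zero, map_zero]
    | El.pt₀ y, El.pt₁ x', m, m', r, hm =>
      ext n
      have := (hz x').elim n 0
      rw [this, map_zero, map_zero]
  · ext1
    funext v
    exact lift_comp N B C p hz θ hθ hnat b₀ n₀ hn₀ (f.app (op (Over.mk q))) hb₀ v.unop.left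
      (hu.to v.unop).left (f.app (op v.unop)) (f.naturality (hu.to v.unop).op)

lemma S_θ_inj (y : X.X₀) : Function.Injective ((S (El.pt₀ y : El X)).subtype) :=
  Subtype.val_injective

end

/-- The module `P₀` pulled back along a functor `F : El X ⥤ El (term H)` preserving the types of
the objects is internally projective if the automorphisms of `φ` act trivially on `X`. -/
lemma proj_P₀ {X : Obj G} (hX : ∀ (g : G) (x : X.X₁), X.push g (𝟙 x) = 𝟙 _) {H : Type} [Group H]
    (F : El X ⥤ El (term H))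
    (h₀ : ∀ y : X.X₀, F.obj (El.pt₀ y) = El.pt₀ (X := term H) ⟨PUnit.unit⟩)
    (h₁ : ∀ x : X.X₁, F.obj (El.pt₁ x) = El.pt₁ (X := term H) ⟨PUnit.unit⟩) :
    InternallyProjective (F.op ⋙ P₀ H) := by
  refine proj_of hX _ ?_ (fun y => (S (F.obj (El.pt₀ y))).subtype) ?_ ?_ ?_
  · intro x
    change Subsingleton (S (F.obj (El.pt₁ x)))
    rw [h₁]
    exact (inferInstance : Subsingleton (⊥ : Submodule (ZMod 2) (ZMod 2)))
  · intro y
    exact Subtype.val_injective
  · intro y
    have : (1 : ZMod 2) ∈ S (F.obj (El.pt₀ y)) := by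
      rw [h₀]
      exact Submodule.mem_top
    exact ⟨⟨1, this⟩, rfl⟩
  · intro y y' f n
    rfl

lemma hott_proj_trivial : HoTTProjective Unit (P₀ Unit) := by
  intro X
  exact proj_P₀ (fun g x => X.push_one x) (toTerm X) (fun _ => rfl) (fun _ => rfl)

lemma int_proj_term (H : Type) [Group H] :
    InternallyProjective ((cmp G H).op ⋙ P₀ H) :=
  proj_P₀ (X := term G) (fun _ _ => rfl) (cmp G H) (fun _ => rfl) (fun _ => rfl)

/-- The free module on the representable presheaf of `(0, *)`. -/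
noncomputable def free₀ (G : Type) [Group G] : (El (rep G))ᵒᵖ ⥤ ModuleCat.{0} (ZMod 2) where
  obj e := ModuleCat.of (ZMod 2) ((e.unop ⟶ p₀ G) →₀ ZMod 2)
  map u := ModuleCat.ofHom (Finsupp.lmapDomain (ZMod 2) (ZMod 2) (fun v => u.unop ≫ v))
  map_id e := by
    apply ModuleCat.hom_ext
    change Finsupp.lmapDomain (ZMod 2) (ZMod 2) (fun v => 𝟙 _ ≫ v) = LinearMap.id
    simp only [Category.id_comp]
    exact Finsupp.lmapDomain_id _ _
  map_comp u w := by
    apply ModuleCat.hom_ext
    change Finsupp.lmapDomain (ZMod 2) (ZMod 2) (fun v => (w.unop ≫ u.unop) ≫ v) =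
      (Finsupp.lmapDomain (ZMod 2) (ZMod 2) (fun v => w.unop ≫ v)).comp
        (Finsupp.lmapDomain (ZMod 2) (ZMod 2) (fun v => u.unop ≫ v))
    simp only [Category.assoc]
    exact Finsupp.lmapDomain_comp _ _ _ _

/-- The pullback of `P₀` to the slice over `y(1)`. -/
abbrev Nrep (G : Type) [Group G] : (El (rep G))ᵒᵖ ⥤ ModuleCat.{0} (ZMod 2) :=
  (toTerm (rep G)).op ⋙ (cmp G Unit).op ⋙ P₀ Unit

lemma aug_mem (e : El (rep G)) (φ : (e ⟶ p₀ G) →₀ ZMod 2) :
    Finsupp.linearCombination (ZMod 2) (fun _ => (1 : ZMod 2)) φ ∈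
      S ((cmp G Unit).obj ((toTerm (rep G)).obj e)) := by
  match e, φ with
  | El.pt₀ _, _ => exact Submodule.mem_top
  | El.pt₁ x, φ =>
    have hE : IsEmpty (El.pt₁ (X := rep G) x ⟶ p₀ G) := (inferInstance : IsEmpty PEmpty)
    have : φ = 0 := Subsingleton.elim _ _
    rw [this, map_zero]
    exact Submodule.zero_mem _

/-- The augmentation. -/
noncomputable def aug (G : Type) [Group G] : free₀ G ⟶ Nrep G where
  app e := ModuleCat.ofHom (LinearMap.codRestrict _
    (Finsupp.linearCombination (ZMod 2) (fun _ => (1 : ZMod 2))) (aug_mem e.unop))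
  naturality e e' u := by
    ext φ
    apply Subtype.ext
    change Finsupp.linearCombination (ZMod 2) (fun _ => (1 : ZMod 2))
      (Finsupp.mapDomain (fun v => u.unop ≫ v) φ) =
      Finsupp.linearCombination (ZMod 2) (fun _ => (1 : ZMod 2)) φ
    rw [Finsupp.linearCombination_mapDomain]
    rfl

instance : Epi (aug G) := by
  have : ∀ e, Epi ((aug G).app e) := by
    intro e
    rw [ModuleCat.epi_iff_surjective]
    match e with
    | ⟨El.pt₀ y⟩ =>
      intro c
      refine ⟨Finsupp.single (𝟙 (p₀ G)) c.1, ?_⟩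
      apply Subtype.ext
      change Finsupp.linearCombination (ZMod 2) (fun _ => (1 : ZMod 2))
        (Finsupp.single (𝟙 (p₀ G)) c.1) = c.1
      rw [Finsupp.linearCombination_single, smul_eq_mul, mul_one]
    | ⟨El.pt₁ y⟩ =>
      intro c
      refine ⟨0, ?_⟩
      exact Subsingleton.elim (α := (⊥ : Submodule (ZMod 2) (ZMod 2))) _ _
  exact NatTrans.epi_of_epi_app _

lemma not_projective_rep : ¬ InternallyProjective (Nrep (Multiplicative (ZMod 2))) := by
  intro h
  obtain ⟨g, hg⟩ := h _ _ (aug (Multiplicative (ZMod 2))) (p₁ _) (𝟙 _)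
  let t : Multiplicative (ZMod 2) := Multiplicative.ofAdd 1
  let u : Over (p₁ (Multiplicative (ZMod 2))) := Over.mk (down _)
  let v : u ⟶ u := Over.homMk (endo t) (endo_down t)
  let b : (p₀ (Multiplicative (ZMod 2)) ⟶ p₀ (Multiplicative (ZMod 2))) →₀ ZMod 2 :=
    (g.app (op u)).hom (⟨1, Submodule.mem_top⟩ : (⊤ : Submodule (ZMod 2) (ZMod 2)))
  have hinv : Finsupp.mapDomain (fun w => endo t ≫ w) b = b := by
    have := g.naturality v.op
    have h2 := LinearMap.congr_fun (congrArg ModuleCat.Hom.hom this)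
      (⟨1, Submodule.mem_top⟩ : (⊤ : Submodule (ZMod 2) (ZMod 2)))
    exact h2.symm
  have hsum : Finsupp.linearCombination (ZMod 2) (fun _ => (1 : ZMod 2)) b = 1 := by
    have := congrArg (fun τ => ((τ.app (op u)).hom
      (⟨1, Submodule.mem_top⟩ : (⊤ : Submodule (ZMod 2) (ZMod 2)))).1) hg
    exact this
  have hinj : Function.Injective (fun w : p₀ (Multiplicative (ZMod 2)) ⟶ p₀ _ => endo t ≫ w) := by
    intro w w' hw
    have key : ∀ w w' : Multiplicative (ZMod 2), w * t = w' * t → w = w' :=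
      fun _ _ h => mul_right_cancel h
    exact key w w' hw
  have hbt : b (endo t) = b (𝟙 _) := by
    have h1 := Finsupp.mapDomain_apply hinj b (𝟙 _)
    rw [hinv] at h1
    simpa using h1
  have hfin : ∀ c : Multiplicative (ZMod 2) →₀ ZMod 2,
      Finsupp.linearCombination (ZMod 2) (fun _ => (1 : ZMod 2)) c = c 1 + c t := by
    intro c
    rw [Finsupp.linearCombination_apply, Finsupp.sum_fintype _ _ (by simp)]
    simp only [smul_eq_mul, mul_one]
    have : (Finset.univ : Finset (Multiplicative (ZMod 2))) = {1, t} := by decide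
    rw [this, Finset.sum_pair (by decide)]
  have hfb := hfin b
  have h3 : b (𝟙 _) + b (endo t) = 1 := hfb.symm.trans hsum
  have h4 : b (endo t) = b (𝟙 _) := hbt
  rw [h4, CharTwo.add_self_eq_zero] at h3
  exact zero_ne_one h3

/-- **Theorem.**  The answers to Q1 and Q2 are negative, both for injectivity and for
projectivity: with `G = ℤ/2` and `H` trivial, the ∞-toposes `𝒳_G` and `𝒳_H` have the same
1-topos of 0-truncated objects, some module is HoTT-injective (HoTT-projective) in `𝒳_H`, while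
in `𝒳_G` it is internally injective (projective) but not HoTT-injective (HoTT-projective). -/
theorem result :
    InjectivityDiffers (Multiplicative (ZMod 2)) Unit ∧
      ProjectivityDiffers (Multiplicative (ZMod 2)) Unit :=
  ⟨⟨cmpEquiv _ _, (Functor.const _).obj k, hott_trivial, int_term,
    fun h => not_injective_rep (h (rep _))⟩,
   ⟨cmpEquiv _ _, P₀ Unit, hott_proj_trivial, int_proj_term Unit,
    fun h => not_projective_rep (h (rep _))⟩⟩

end Pool.Agent.Results.MP_9c2d05_gt.NotStableUnderBaseChange
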